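import Pool.Agent.H.MP_be29a0_al.B

set_option autoImplicit false

namespace Pool.Agent.Results.MP_be29a0_al.No

open Pool.Agent.H.MP_be29a0_al

def Val {k : Type} [Field k] {g n : ℕ} (Ξ : Fin g → Matrix (Fin n) (Fin n) (RatFunc k))
    (s : Ex k g) (A : Matrix (Fin n) (Fin n) (RatFunc k)) : Prop := Ev Ξ s A

theorem result (F : Type) [Field F] [CharZero F] :
    ∃ e : Ex (RatFunc F) 2,
      (∃ (n : ℕ) (Ξ : Fin 2 → Matrix (Fin n) (Fin n) (RatFunc (RatFunc F)))
        (A : Matrix (Fin n) (Fin n) (RatFunc (RatFunc F))), 0 < n ∧ Val Ξ e A) ∧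
      ∀ s : Ex (RatFunc F) 2,
        (∀ (n : ℕ) (Ξ : Fin 2 → Matrix (Fin n) (Fin n) (RatFunc (RatFunc F)))
          (A B : Matrix (Fin n) (Fin n) (RatFunc (RatFunc F))), Val Ξ e A → Val Ξ s B → A = B) →
        ∀ (n : ℕ) (Ξ : Fin 2 → Matrix (Fin n) (Fin n) (RatFunc (RatFunc F)))
          (B : Matrix (Fin n) (Fin n) (RatFunc (RatFunc F))), Val Ξ s B →
          ∀ l : RatFunc (RatFunc F), Even (B.charpoly.rootMultiplicity l) := by
  have : CharZero (RatFunc (RatFunc F)) := algebraRat.charZero _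
  exact ⟨ee RatFunc.X, final RatFunc.X nosq⟩

end Pool.Agent.Results.MP_be29a0_al.No
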